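import Mathlib
import Pool.Agent.V116.Whitman

/-!
The lattice of subvarieties of the variety of implication zroupoids satisfies no non-trivial
lattice identity.
-/

namespace Pool.Agent.Results.MP_79490a_al.NoLatticeIdentity

universe u w

/-- Terms of type `(2, 0)` in the variables `x_0, x_1, ...`. -/
inductive T : Type
  | var : ℕ → T
  | zero : T
  | imp : T → T → T

/-- Algebras of type `(2, 0)`. -/
structure Alg : Type (u + 1) where
  carrier : Type u
  imp : carrier → carrier → carrier
  zero : carrier

/-- Value of a term under an assignment. -/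
def T.eval (A : Alg.{u}) (v : ℕ → A.carrier) : T → A.carrier
  | .var n => v n
  | .zero => A.zero
  | .imp s t => A.imp (T.eval A v s) (T.eval A v t)

/-- The identity `e.1 = e.2` holds in `A`. -/
def Holds (A : Alg.{u}) (e : T × T) : Prop := ∀ v, e.1.eval A v = e.2.eval A v

/-- The term `t' = t → 0`. -/
def T.pr (t : T) : T := .imp t .zero

/-- The defining identities of implication zroupoids:
`(x → y) → z = ((z' → x) → (y → z)')'` and `0'' = 0`. -/
def IZax : Set (T × T) :=
  {(.imp (.imp (.var 0) (.var 1)) (.var 2),
      T.pr (.imp (.imp (T.pr (.var 2)) (.var 0)) (T.pr (.imp (.var 1) (.var 2))))),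
    (T.pr (T.pr .zero), .zero)}

/-- The class of all models of a set of identities. -/
def Mod (E : Set (T × T)) : Set Alg.{u} := {A | ∀ e ∈ E, Holds A e}

/-- The set of identities holding in all algebras of a class. -/
def Th (K : Set Alg.{u}) : Set (T × T) := {e | ∀ A ∈ K, Holds A e}

/-- Subvarieties of the variety of implication zroupoids. -/
@[ext] structure SubVar : Type (u + 1) where
  cls : Set Alg.{u}
  isVar : ∃ E : Set (T × T), IZax ⊆ E ∧ cls = Mod E

lemma mod_th (V : SubVar.{u}) : Mod (Th V.cls) = V.cls := by
  obtain ⟨E, _, hE⟩ := V.isVar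
  apply Set.Subset.antisymm
  · intro A hA
    rw [hE]
    intro e he
    apply hA
    intro B hB
    rw [hE] at hB
    exact hB e he
  · intro A hA e he
    exact he A hA

lemma izax_sub (V : SubVar.{u}) : IZax ⊆ Th V.cls := by
  obtain ⟨E, hE, hV⟩ := V.isVar
  intro e he A hA
  rw [hV] at hA
  exact hA e (hE he)

/-- The lattice of subvarieties, ordered by inclusion: the meet is the intersection and the
join is the variety generated by the union. -/
instance : Lattice SubVar.{u} where
  le V W := V.cls ⊆ W.cls
  le_refl V := Set.Subset.refl V.cls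
  le_trans V W U h1 h2 := Set.Subset.trans h1 h2
  le_antisymm V W h1 h2 := SubVar.ext (Set.Subset.antisymm h1 h2)
  inf V W := ⟨V.cls ∩ W.cls, Th V.cls ∪ Th W.cls, (izax_sub V).trans Set.subset_union_left, by
    apply Set.Subset.antisymm
    · rintro A ⟨h1, h2⟩ e (he | he)
      · exact he A h1
      · exact he A h2
    · intro A hA
      refine ⟨?_, ?_⟩
      · rw [← mod_th V]
        exact fun e he => hA e (Or.inl he)
      · rw [← mod_th W]
        exact fun e he => hA e (Or.inr he)⟩
  inf_le_left V W := Set.inter_subset_left
  inf_le_right V W := Set.inter_subset_right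
  le_inf V W U h1 h2 := Set.subset_inter h1 h2
  sup V W := ⟨Mod (Th (V.cls ∪ W.cls)), Th (V.cls ∪ W.cls), by
    rintro e he A (hA | hA)
    · exact izax_sub V he A hA
    · exact izax_sub W he A hA, rfl⟩
  le_sup_left V W := fun A hA e he => he A (Or.inl hA)
  le_sup_right V W := fun A hA e he => he A (Or.inr hA)
  sup_le V W U h1 h2 := by
    change Mod (Th (V.cls ∪ W.cls)) ⊆ U.cls
    rw [← mod_th U]
    intro A hA e he
    apply hA
    rintro B (hB | hB)
    · exact he B (h1 hB)
    · exact he B (h2 hB)

/-- Lattice terms. -/
inductive LT : Type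
  | var : ℕ → LT
  | sup : LT → LT → LT
  | inf : LT → LT → LT

/-- Value of a lattice term. -/
def LT.eval {M : Type w} [Lattice M] (v : ℕ → M) : LT → M
  | .var n => v n
  | .sup s t => LT.eval v s ⊔ LT.eval v t
  | .inf s t => LT.eval v s ⊓ LT.eval v t

/-- The lattice identity `p = q` holds in the lattice `M`. -/
def LHolds (M : Type w) [Lattice M] (p q : LT) : Prop := ∀ v : ℕ → M, p.eval v = q.eval v

/-! ### The subvarieties -/

/-- The terms `x_1 → (x_1 → ... → x_0)`, with `k` arrows. -/
def chT : ℕ → T
  | 0 => .var 0
  | k + 1 => .imp (.var 1) (chT k)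

/-- The terms `x_0 → (x_1 → ... (x_1 → x_0))`, with `n + 1` occurrences of `x_1`. -/
def ST (n : ℕ) : T := .imp (.var 0) (chT (n + 1))

/-- The base identities. -/
def Base : Set (T × T) :=
  {e | e = (.imp (.imp (.var 0) (.var 1)) (.var 2), .zero) ∨ e = (.imp (.var 0) .zero, .zero) ∨
    e = (.imp (.var 0) (.imp (.var 0) (.var 0)), .zero) ∨
    ∃ n, e = (.imp (.var 2) (ST n), .zero)}

/-- The identities of the variety attached to an equivalence. -/
def EqE (E : Setoid ℕ) : Set (T × T) :=
  IZax ∪ (Base ∪ {e | ∃ n m, E n m ∧ e = (ST n, ST m)})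

/-- The variety attached to an equivalence. -/
def VE (E : Setoid ℕ) : SubVar.{u} := ⟨Mod (EqE E), EqE E, Set.subset_union_left, rfl⟩

lemma mem_VE {E : Setoid ℕ} {A : Alg.{u}} : A ∈ (VE.{u} E).cls ↔
    (∀ e ∈ IZax, Holds A e) ∧ (∀ e ∈ Base, Holds A e) ∧
      ∀ n m, E n m → Holds A (ST n, ST m) := by
  constructor
  · intro h
    exact ⟨fun e he => h e (Or.inl he), fun e he => h e (Or.inr (Or.inl he)),
      fun n m hnm => h _ (Or.inr (Or.inr ⟨n, m, hnm, rfl⟩))⟩
  · rintro ⟨h1, h2, h3⟩ e (he | he | ⟨n, m, hnm, rfl⟩)
    · exact h1 e he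
    · exact h2 e he
    · exact h3 n m hnm

lemma VE_anti {E F : Setoid ℕ} (h : E ≤ F) : VE.{u} F ≤ VE.{u} E := by
  intro A hA
  rw [mem_VE] at hA ⊢
  exact ⟨hA.1, hA.2.1, fun n m hnm => hA.2.2 n m (h hnm)⟩

lemma VE_sup (E F : Setoid ℕ) : VE.{u} (E ⊔ F) = VE E ⊓ VE F := by
  apply le_antisymm
  · exact le_inf (VE_anti le_sup_left) (VE_anti le_sup_right)
  · rintro A ⟨h1, h2⟩
    rw [mem_VE] at h1 h2 ⊢
    refine ⟨h1.1, h1.2.1, ?_⟩
    let G : Setoid ℕ := {
      r := fun n m => Holds A (ST n, ST m)
      iseqv := {
        refl := fun n v => rfl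
        symm := fun {n m} h v => (h v).symm
        trans := fun {n m k} h h' v => (h v).trans (h' v) } }
    have hG : E ⊔ F ≤ G := sup_le (fun n m h => h1.2.2 n m h) (fun n m h => h2.2.2 n m h)
    exact fun n m h => hG h

/-! ### Words -/

/-- The special word `a b^(n+1) a`. -/
def special (a b n : ℕ) : List ℕ := a :: (List.replicate (n + 1) b ++ [a])

/-- Special words. -/
def IsSpecial (w : List ℕ) : Prop := ∃ a b n, a ≠ b ∧ w = special a b n

lemma special_length (a b n : ℕ) : (special a b n).length = n + 3 := by
  simp [special]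

lemma special_inj {a b n a' b' n' : ℕ} (h : special a b n = special a' b' n') :
    a = a' ∧ b = b' ∧ n = n' := by
  have h1 : n = n' := by
    have := congrArg List.length h
    rw [special_length, special_length] at this
    omega
  subst h1
  unfold special at h
  rw [List.cons.injEq] at h
  refine ⟨h.1, ?_, rfl⟩
  have h2 := h.2
  rw [List.replicate_succ, List.replicate_succ, List.cons_append, List.cons_append,
    List.cons.injEq] at h2
  exact h2.1

/-- The letter `a` cannot be added in front of `w`. -/
def Bad (a : ℕ) (w : List ℕ) : Prop := w = [] ∨ IsSpecial w ∨ w = [a, a]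

open Classical in
/-- Normal form of a term: `none` represents `0`. -/
noncomputable def nf : T → Option (List ℕ)
  | .var n => some [n]
  | .zero => none
  | .imp s t => match nf s, nf t with
    | some [a], some w => if Bad a w then none else some (a :: w)
    | _, _ => none

open Classical in
/-- Replace a special word by a canonical one. -/
noncomputable def rep (r : ℕ → ℕ) (w : List ℕ) : List ℕ :=
  if h : IsSpecial w then
    special h.choose h.choose_spec.choose (r h.choose_spec.choose_spec.choose) else w

lemma rep_special (r : ℕ → ℕ) {a b n : ℕ} (hab : a ≠ b) :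
    rep r (special a b n) = special a b (r n) := by
  have h : IsSpecial (special a b n) := ⟨a, b, n, hab, rfl⟩
  unfold rep
  rw [dif_pos h]
  have h1 := h.choose_spec.choose_spec.choose_spec.2
  obtain ⟨e1, e2, e3⟩ := special_inj h1
  exact congr (congr (congrArg special e1.symm) e2.symm) (congrArg r e3.symm)

lemma rep_of_not (r : ℕ → ℕ) {w : List ℕ} (h : ¬ IsSpecial w) : rep r w = w := by
  unfold rep
  rw [dif_neg h]

lemma rep_eq_iff (r : ℕ → ℕ) (w : List ℕ) :
    (∃ a b n, a ≠ b ∧ w = special a b n ∧ rep r w = special a b (r n)) ∨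
      (¬ IsSpecial w ∧ rep r w = w) := by
  by_cases h : IsSpecial w
  · obtain ⟨a, b, n, hab, rfl⟩ := h
    exact Or.inl ⟨a, b, n, hab, rfl, rep_special r hab⟩
  · exact Or.inr ⟨h, rep_of_not r h⟩

lemma rep_length (r : ℕ → ℕ) {w : List ℕ} (h : 2 ≤ w.length) : 2 ≤ (rep r w).length := by
  rcases rep_eq_iff r w with ⟨a, b, n, _, _, h2⟩ | ⟨_, h2⟩
  · rw [h2, special_length]
    omega
  · rw [h2]
    exact h

open Classical in
/-- The operation of the model. -/
noncomputable def op (r : ℕ → ℕ) : Option (List ℕ) → Option (List ℕ) → Option (List ℕ)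
  | some [a], some w => if Bad a w then none else some (rep r (a :: w))
  | _, _ => none

lemma op_none_left (r : ℕ → ℕ) (y : Option (List ℕ)) : op r none y = none := by
  cases y <;> rfl

lemma op_none_right (r : ℕ → ℕ) (x : Option (List ℕ)) : op r x none = none := by
  match x with
  | none => rfl
  | some [] => rfl
  | some [a] => rfl
  | some (a :: b :: l) => rfl

lemma op_long (r : ℕ → ℕ) {l : List ℕ} (h : 2 ≤ l.length) (y : Option (List ℕ)) :
    op r (some l) y = none := by
  match l, y with
  | [], _ => simp at h
  | [a], _ => simp at h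
  | a :: b :: l, none => rfl
  | a :: b :: l, some w => rfl

lemma op_nil (r : ℕ → ℕ) (y : Option (List ℕ)) : op r (some []) y = none := by
  cases y <;> rfl

lemma op_single (r : ℕ → ℕ) (a : ℕ) (w : List ℕ) (h : ¬ Bad a w) :
    op r (some [a]) (some w) = some (rep r (a :: w)) := by
  simp only [op]
  rw [if_neg h]

lemma op_bad (r : ℕ → ℕ) (a : ℕ) (w : List ℕ) (h : Bad a w) :
    op r (some [a]) (some w) = none := by
  simp only [op]
  rw [if_pos h]

/-- Values of the operation are `none` or long words. -/
lemma op_value (r : ℕ → ℕ) (x y : Option (List ℕ)) :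
    op r x y = none ∨ ∃ l : List ℕ, 2 ≤ l.length ∧ op r x y = some l := by
  match x, y with
  | none, y => exact Or.inl (op_none_left r y)
  | some [], y => exact Or.inl (op_nil r y)
  | some (a :: b :: l), y => exact Or.inl (op_long r (by simp) y)
  | some [a], none => exact Or.inl rfl
  | some [a], some w =>
    by_cases h : Bad a w
    · exact Or.inl (op_bad r a w h)
    · right
      refine ⟨rep r (a :: w), ?_, op_single r a w h⟩
      apply rep_length
      have hw : w ≠ [] := fun h' => h (Or.inl h')
      have := List.length_pos_of_ne_nil hw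
      simp only [List.length_cons]
      omega

lemma op_op (r : ℕ → ℕ) (x y z : Option (List ℕ)) : op r (op r x y) z = none := by
  rcases op_value r x y with h | ⟨l, h1, h2⟩
  · rw [h, op_none_left]
  · rw [h2, op_long r h1]

/-- Only single letters act. -/
lemma op_not_single (r : ℕ → ℕ) (x y : Option (List ℕ)) (h : ∀ a, x ≠ some [a]) :
    op r x y = none := by
  match x with
  | none => exact op_none_left r y
  | some [] => exact op_nil r y
  | some [a] => exact absurd rfl (h a)
  | some (a :: b :: l) => exact op_long r (by simp) y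

/-- Iterated operation. -/
noncomputable def chO (r : ℕ → ℕ) (x y : Option (List ℕ)) : ℕ → Option (List ℕ)
  | 0 => x
  | k + 1 => op r y (chO r x y k)

lemma not_special_rep {a b : ℕ} (hab : a ≠ b) (k : ℕ) :
    ¬ IsSpecial (List.replicate k b ++ [a]) := by
  rintro ⟨c, d, n, hcd, h⟩
  cases k with
  | zero =>
    have := congrArg List.length h
    rw [special_length] at this
    simp at this
  | succ k =>
    have h1 := congrArg List.getLast? h
    have h2 := congrArg List.head? h
    rw [List.getLast?_append] at h1
    unfold special at h1 h2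
    rw [← List.cons_append, List.getLast?_append] at h1
    simp only [List.getLast?_singleton, Option.some_or, Option.some.injEq] at h1
    rw [List.replicate_succ, List.cons_append] at h2
    simp only [List.head?_cons, Option.some.injEq] at h2
    exact hab (h1.trans h2.symm)

lemma not_bad_rep {a b : ℕ} (hab : a ≠ b) (k : ℕ) :
    ¬ Bad b (List.replicate k b ++ [a]) := by
  rintro (h | h | h)
  · simp at h
  · exact not_special_rep hab k h
  · have h1 := congrArg List.getLast? h
    rw [List.getLast?_append] at h1
    simp at h1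
    exact hab h1

lemma chO_ne (r : ℕ → ℕ) {a b : ℕ} (hab : a ≠ b) (k : ℕ) :
    chO r (some [a]) (some [b]) k = some (List.replicate k b ++ [a]) := by
  induction k with
  | zero => rfl
  | succ k ih =>
    rw [chO, ih, op_single r b _ (not_bad_rep hab k)]
    rw [← List.cons_append, ← List.replicate_succ]
    rw [rep_of_not r (not_special_rep hab (k + 1))]

/-- Value of the special terms. -/
noncomputable def SO (r : ℕ → ℕ) (x y : Option (List ℕ)) (n : ℕ) : Option (List ℕ) :=
  op r x (chO r x y (n + 1))

lemma not_bad_special {a b : ℕ} (hab : a ≠ b) (n : ℕ) :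
    ¬ Bad a (List.replicate (n + 1) b ++ [a]) := by
  rintro (h | h | h)
  · simp at h
  · exact not_special_rep hab (n + 1) h
  · rw [List.replicate_succ, List.cons_append, List.cons.injEq] at h
    exact hab h.1.symm

lemma SO_value (r : ℕ → ℕ) (x y : Option (List ℕ)) :
    (∀ n, SO r x y n = none) ∨ ∃ a b, a ≠ b ∧ ∀ n, SO r x y n = some (special a b (r n)) := by
  by_cases hx : ∃ a, x = some [a]
  · obtain ⟨a, rfl⟩ := hx
    by_cases hy : ∃ b, y = some [b]
    · obtain ⟨b, rfl⟩ := hy
      by_cases hab : a = b
      · left
        subst hab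
        intro n
        unfold SO
        have h1 : chO r (some [a]) (some [a]) 1 = some [a, a] := by
          change op r (some [a]) (some [a]) = _
          rw [op_single, rep_of_not]
          · rintro ⟨c, d, n, _, h⟩
            have := congrArg List.length h
            rw [special_length] at this
            simp at this
          · rintro (h | ⟨c, d, n, _, h⟩ | h)
            · simp at h
            · have := congrArg List.length h
              rw [special_length] at this
              simp at this
            · simp at h
        have h2 : ∀ k, chO r (some [a]) (some [a]) (k + 2) = none := by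
          intro k
          induction k with
          | zero =>
            change op r (some [a]) (chO r (some [a]) (some [a]) 1) = none
            rw [h1]
            exact op_bad r a _ (Or.inr (Or.inr rfl))
          | succ k ih =>
            change op r (some [a]) (chO r (some [a]) (some [a]) (k + 2)) = none
            rw [ih]
            rfl
        exact h2 n
      · right
        refine ⟨a, b, hab, fun n => ?_⟩
        unfold SO
        rw [chO_ne r hab, op_single r a _ (not_bad_special hab n)]
        change some (rep r (special a b n)) = _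
        rw [rep_special r hab]
    · left
      intro n
      unfold SO
      rw [chO, op_not_single r y _ (fun b hb => hy ⟨b, hb⟩)]
      exact op_none_right r _
  · left
    intro n
    exact op_not_single r x _ (fun a ha => hx ⟨a, ha⟩)

/-- The model. -/
noncomputable def ME (r : ℕ → ℕ) : Alg.{u} where
  carrier := ULift.{u} (Option (List ℕ))
  imp := fun x y => ⟨op r x.down y.down⟩
  zero := ⟨none⟩

lemma eval_chT (r : ℕ → ℕ) (v : ℕ → ULift.{u} (Option (List ℕ))) (k : ℕ) :
    (chT k).eval (ME.{u} r) v = ⟨chO r (v 0).down (v 1).down k⟩ := by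
  induction k with
  | zero => rfl
  | succ k ih =>
    change (ME.{u} r).imp (v 1) ((chT k).eval (ME.{u} r) v) = _
    rw [ih]
    rfl

lemma eval_ST (r : ℕ → ℕ) (v : ℕ → ULift.{u} (Option (List ℕ))) (n : ℕ) :
    (ST n).eval (ME.{u} r) v = ⟨SO r (v 0).down (v 1).down n⟩ := by
  change (ME.{u} r).imp (v 0) ((chT (n + 1)).eval (ME.{u} r) v) = _
  rw [eval_chT]
  rfl

/-- The canonical representative function of an equivalence. -/
noncomputable def canon (E : Setoid ℕ) (n : ℕ) : ℕ := (Quotient.mk E n).out

lemma canon_eq_iff (E : Setoid ℕ) (n m : ℕ) : canon E n = canon E m ↔ E n m := by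
  unfold canon
  constructor
  · intro h
    have h1 : E (Quotient.mk E n).out n := Quotient.mk_out (s := E) n
    have h2 : E (Quotient.mk E m).out m := Quotient.mk_out (s := E) m
    rw [h] at h1
    exact E.trans' (E.symm' h1) h2
  · intro h
    have : Quotient.mk E n = Quotient.mk E m := Quotient.sound (s := E) h
    rw [this]

lemma ME_mem (E : Setoid ℕ) : ME.{u} (canon E) ∈ (VE.{u} E).cls := by
  set r := canon E with hr
  rw [mem_VE]
  refine ⟨?_, ?_, ?_⟩
  · intro e he v
    simp only [IZax, Set.mem_insert_iff, Set.mem_singleton_iff] at he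
    rcases he with rfl | rfl
    · change (⟨op r (op r (v 0).down (v 1).down) (v 2).down⟩ :
        ULift.{u} (Option (List ℕ))) = ⟨op r _ none⟩
      rw [op_op, op_none_right]
    · change (⟨op r _ none⟩ : ULift.{u} (Option (List ℕ))) = ⟨none⟩
      rw [op_none_right]
  · rintro e (rfl | rfl | rfl | ⟨n, rfl⟩) v
    · change (⟨op r (op r (v 0).down (v 1).down) (v 2).down⟩ :
        ULift.{u} (Option (List ℕ))) = ⟨none⟩
      rw [op_op]
    · change (⟨op r _ none⟩ : ULift.{u} (Option (List ℕ))) = ⟨none⟩
      rw [op_none_right]
    · change (⟨op r (v 0).down (op r (v 0).down (v 0).down)⟩ :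
        ULift.{u} (Option (List ℕ))) = ⟨none⟩
      congr 1
      by_cases hx : ∃ a, (v 0).down = some [a]
      · obtain ⟨a, ha⟩ := hx
        rw [ha]
        have h1 : op r (some [a]) (some [a]) = some [a, a] := by
          rw [op_single, rep_of_not]
          · rintro ⟨c, d, n, _, h⟩
            have := congrArg List.length h
            rw [special_length] at this
            simp at this
          · rintro (h | ⟨c, d, n, _, h⟩ | h)
            · simp at h
            · have := congrArg List.length h
              rw [special_length] at this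
              simp at this
            · simp at h
        rw [h1]
        exact op_bad r a _ (Or.inr (Or.inr rfl))
      · exact op_not_single r _ _ (fun a ha => hx ⟨a, ha⟩)
    · change (ME.{u} r).imp (v 2) ((ST n).eval (ME.{u} r) v) = ⟨none⟩
      rw [eval_ST]
      change (⟨op r (v 2).down (SO r (v 0).down (v 1).down n)⟩ :
        ULift.{u} (Option (List ℕ))) = ⟨none⟩
      congr 1
      rcases SO_value r (v 0).down (v 1).down with h | ⟨a, b, hab, h⟩
      · rw [h, op_none_right]
      · rw [h]
        by_cases hx : ∃ c, (v 2).down = some [c]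
        · obtain ⟨c, hc⟩ := hx
          rw [hc]
          exact op_bad r c _ (Or.inr (Or.inl ⟨a, b, r n, hab, rfl⟩))
        · exact op_not_single r _ _ (fun a ha => hx ⟨a, ha⟩)
  · intro n m hnm v
    change (ST n).eval (ME.{u} r) v = (ST m).eval (ME.{u} r) v
    rw [eval_ST, eval_ST]
    have hrr : r n = r m := (canon_eq_iff E n m).mpr hnm
    rcases SO_value r (v 0).down (v 1).down with h | ⟨a, b, hab, h⟩
    · rw [h, h]
    · rw [h, h, hrr]

lemma nf_ne_nil (t : T) : nf t ≠ some [] := by
  classical
  cases t with
  | var n => simp [nf]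
  | zero => simp [nf]
  | imp s t =>
    unfold nf
    split
    · split_ifs
      · simp
      · simp
    · simp

/-- Evaluation of terms in the model. -/
lemma eval_ME (r : ℕ → ℕ) (t : T) :
    t.eval (ME.{u} r) (fun i => ⟨some [i]⟩) = ⟨(nf t).map (rep r)⟩ := by
  classical
  induction t with
  | var n =>
    change (⟨some [n]⟩ : ULift.{u} (Option (List ℕ))) = ⟨some (rep r [n])⟩
    rw [rep_of_not]
    rintro ⟨c, d, k, _, h⟩
    have := congrArg List.length h
    rw [special_length] at this
    simp at this
  | zero => rfl
  | imp s t hs ht =>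
    change (ME.{u} r).imp (s.eval (ME.{u} r) _) (t.eval (ME.{u} r) _) = _
    rw [hs, ht]
    change (⟨op r ((nf s).map (rep r)) ((nf t).map (rep r))⟩ :
      ULift.{u} (Option (List ℕ))) = _
    congr 1
    have hlen1 : ∀ a : ℕ, ¬ IsSpecial [a] := by
      rintro a ⟨c, d, k, _, h⟩
      have := congrArg List.length h
      rw [special_length] at this
      simp at this
    match hs' : nf s, ht' : nf t with
    | none, y =>
      simp only [nf, hs', Option.map_none]
      exact op_none_left r _
    | some [], y => exact absurd hs' (nf_ne_nil s)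
    | some (a :: b :: l), y =>
      simp only [nf, hs', Option.map_some, Option.map_none]
      exact op_long r (rep_length r (by simp)) _
    | some [a], none =>
      simp only [nf, hs', ht', Option.map_none]
      exact op_none_right r _
    | some [a], some w =>
      simp only [nf, hs', ht', Option.map_some]
      rw [rep_of_not r (hlen1 a)]
      rcases rep_eq_iff r w with ⟨c, d, n, hcd, hw, h2⟩ | ⟨hw, h2⟩
      · rw [h2, op_bad r a _ (Or.inr (Or.inl ⟨c, d, r n, hcd, rfl⟩))]
        rw [if_pos (show Bad a w from Or.inr (Or.inl ⟨c, d, n, hcd, hw⟩))]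
        rfl
      · rw [h2]
        by_cases hb : Bad a w
        · rw [op_bad r a w hb, if_pos hb]
          rfl
        · rw [op_single r a w hb, if_neg hb]
          rfl

/-- Value of a word in an algebra. -/
def evl (A : Alg.{u}) (v : ℕ → A.carrier) : List ℕ → A.carrier
  | [] => A.zero
  | [a] => v a
  | a :: b :: l => A.imp (v a) (evl A v (b :: l))

lemma evl_cons (A : Alg.{u}) (v : ℕ → A.carrier) (a : ℕ) {w : List ℕ} (hw : w ≠ []) :
    evl A v (a :: w) = A.imp (v a) (evl A v w) := by
  match w with
  | [] => exact absurd rfl hw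
  | b :: l => rfl

/-- Value of a normal form in an algebra. -/
def evo (A : Alg.{u}) (v : ℕ → A.carrier) : Option (List ℕ) → A.carrier
  | none => A.zero
  | some w => evl A v w

lemma eval_chT_A (A : Alg.{u}) (v : ℕ → A.carrier) (a b : ℕ) (v' : ℕ → A.carrier)
    (h0 : v' 0 = v a) (h1 : v' 1 = v b) (k : ℕ) :
    (chT k).eval A v' = evl A v (List.replicate k b ++ [a]) := by
  induction k with
  | zero => exact h0
  | succ k ih =>
    rw [List.replicate_succ, List.cons_append, evl_cons A v b (by simp), ← ih, ← h1]
    rfl

lemma eval_ST_A (A : Alg.{u}) (v : ℕ → A.carrier) (a b : ℕ) (v' : ℕ → A.carrier)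
    (h0 : v' 0 = v a) (h1 : v' 1 = v b) (n : ℕ) :
    (ST n).eval A v' = evl A v (special a b n) := by
  unfold special
  rw [evl_cons A v a (by simp), ← eval_chT_A A v a b v' h0 h1 (n + 1), ← h0]
  rfl

/-- Terms are equal to their normal forms. -/
lemma eval_eq_nf {A : Alg.{u}} (hA : ∀ e ∈ Base, Holds A e) (v : ℕ → A.carrier) (t : T) :
    t.eval A v = evo A v (nf t) := by
  classical
  have b1 : ∀ x y z : A.carrier, A.imp (A.imp x y) z = A.zero := by
    intro x y z
    have := hA _ (Or.inl rfl) (fun i => if i = 0 then x else if i = 1 then y else z)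
    simpa [T.eval] using this
  have b2 : ∀ x : A.carrier, A.imp x A.zero = A.zero := by
    intro x
    exact hA _ (Or.inr (Or.inl rfl)) (fun _ => x)
  have b3 : ∀ x : A.carrier, A.imp x (A.imp x x) = A.zero := by
    intro x
    exact hA _ (Or.inr (Or.inr (Or.inl rfl))) (fun _ => x)
  have b4 : ∀ (x : A.carrier) (a b n : ℕ), A.imp x (evl A v (special a b n)) = A.zero := by
    intro x a b n
    have := hA _ (Or.inr (Or.inr (Or.inr ⟨n, rfl⟩)))
      (fun i => if i = 0 then v a else if i = 1 then v b else x)
    rw [← eval_ST_A A v a b (fun i => if i = 0 then v a else if i = 1 then v b else x)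
      (by simp) (by simp) n]
    simpa [T.eval] using this
  have b5 : ∀ z : A.carrier, A.imp A.zero z = A.zero := by
    intro z
    rw [← b1 A.zero A.zero A.zero]
    rw [b1 (A.imp A.zero A.zero) A.zero z, b1]
  induction t with
  | var n => rfl
  | zero => rfl
  | imp s t hs ht =>
    change A.imp (s.eval A v) (t.eval A v) = _
    rw [hs, ht]
    match hs' : nf s, ht' : nf t with
    | none, y =>
      simp only [nf, hs']
      exact b5 _
    | some [], y => exact absurd hs' (nf_ne_nil s)
    | some (a :: b :: l), y =>
      simp only [nf, hs']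
      exact b1 _ _ _
    | some [a], none =>
      simp only [nf, hs', ht']
      exact b2 _
    | some [a], some w =>
      simp only [nf, hs', ht']
      have hw : w ≠ [] := by
        rintro rfl
        exact nf_ne_nil t ht'
      by_cases hb : Bad a w
      · rw [if_pos hb]
        rcases hb with hb | ⟨c, d, n, _, hb⟩ | hb
        · exact absurd hb hw
        · rw [hb]
          exact b4 _ c d n
        · rw [hb]
          exact b3 (v a)
      · rw [if_neg hb]
        exact (evl_cons A v a hw).symm

/-- If an identity holds in the model of `E` then the normal forms agree up to `E`. -/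
lemma nf_of_holds {E : Setoid ℕ} {e : T × T} (h : Holds (ME.{u} (canon E)) e) :
    nf e.1 = nf e.2 ∨ ∃ a b n m, a ≠ b ∧ E n m ∧ nf e.1 = some (special a b n) ∧
      nf e.2 = some (special a b m) := by
  have h1 := h (fun i => ⟨some [i]⟩)
  rw [eval_ME, eval_ME] at h1
  have h2 : (nf e.1).map (rep (canon E)) = (nf e.2).map (rep (canon E)) :=
    congrArg ULift.down h1
  match h3 : nf e.1, h4 : nf e.2 with
  | none, none => exact Or.inl rfl
  | none, some w =>
    rw [h3, h4] at h2
    simp at h2
  | some w, none =>
    rw [h3, h4] at h2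
    simp at h2
  | some w, some w' =>
    rw [h3, h4] at h2
    simp only [Option.map_some, Option.some.injEq] at h2
    rcases rep_eq_iff (canon E) w with ⟨a, b, n, hab, hw, e1⟩ | ⟨hw, e1⟩
    · rcases rep_eq_iff (canon E) w' with ⟨a', b', n', hab', hw', e2⟩ | ⟨hw', e2⟩
      · rw [e1, e2] at h2
        obtain ⟨f1, f2, f3⟩ := special_inj h2
        subst f1 f2
        right
        exact ⟨a, b, n, n', hab, (canon_eq_iff E n n').mp f3, by rw [hw], by rw [hw']⟩
      · rw [e1, e2] at h2
        exact absurd ⟨a, b, canon E n, hab, h2.symm⟩ hw'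
    · rcases rep_eq_iff (canon E) w' with ⟨a', b', n', hab', hw', e2⟩ | ⟨hw', e2⟩
      · rw [e1, e2] at h2
        exact absurd ⟨a', b', canon E n', hab', h2⟩ hw
      · rw [e1, e2] at h2
        left
        rw [h2]

lemma VE_inf (E F : Setoid ℕ) : VE.{u} (E ⊓ F) = VE E ⊔ VE F := by
  apply le_antisymm
  · intro A hA e he
    rw [mem_VE] at hA
    have h1 : Holds (ME.{u} (canon E)) e := he _ (Or.inl (ME_mem E))
    have h2 : Holds (ME.{u} (canon F)) e := he _ (Or.inr (ME_mem F))
    intro v
    rw [eval_eq_nf hA.2.1, eval_eq_nf hA.2.1]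
    rcases nf_of_holds h1 with h3 | ⟨a, b, n, m, hab, hE, h3, h4⟩
    · rw [h3]
    · rcases nf_of_holds h2 with h5 | ⟨a', b', n', m', hab', hF, h5, h6⟩
      · rw [h5]
      · rw [h3] at h5
        rw [h4] at h6
        obtain ⟨f1, f2, f3⟩ := special_inj (Option.some.inj h5)
        obtain ⟨_, _, g3⟩ := special_inj (Option.some.inj h6)
        subst f1 f2 f3 g3
        rw [h3, h4]
        have h7 := hA.2.2 n m ⟨hE, hF⟩ (fun i => if i = 0 then v a else v b)
        change (ST n).eval A _ = (ST m).eval A _ at h7
        rw [eval_ST_A A v a b _ (by simp) (by simp) n,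
          eval_ST_A A v a b _ (by simp) (by simp) m] at h7
        exact h7
  · exact sup_le (VE_anti inf_le_left) (VE_anti inf_le_right)

lemma nf_chT (k : ℕ) : nf (chT k) = some (List.replicate k 1 ++ [0]) := by
  classical
  induction k with
  | zero => rfl
  | succ k ih =>
    change nf (.imp (.var 1) (chT k)) = _
    simp only [nf, ih]
    rw [if_neg (not_bad_rep (a := 0) (b := 1) (by norm_num) k)]
    rw [List.replicate_succ, List.cons_append]

lemma nf_ST (n : ℕ) : nf (ST n) = some (special 0 1 n) := by
  classical
  change nf (.imp (.var 0) (chT (n + 1))) = _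
  simp only [nf, nf_chT]
  rw [if_neg (not_bad_special (a := 0) (b := 1) (by norm_num) n)]
  rfl

lemma VE_injective : Function.Injective (VE.{u}) := by
  have key : ∀ E F : Setoid ℕ, VE.{u} E = VE.{u} F → E ≤ F := by
    intro E F h n m hnm
    have h1 : ME.{u} (canon F) ∈ (VE.{u} E).cls := by
      rw [h]
      exact ME_mem F
    rw [mem_VE] at h1
    have h2 := h1.2.2 n m hnm
    rcases nf_of_holds h2 with h3 | ⟨a, b, n', m', _, hF, h3, h4⟩
    · change nf (ST n) = nf (ST m) at h3
      rw [nf_ST, nf_ST] at h3
      obtain ⟨_, _, h4⟩ := special_inj (Option.some.inj h3)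
      subst h4
      exact F.refl' n
    · change nf (ST n) = _ at h3
      change nf (ST m) = _ at h4
      rw [nf_ST] at h3 h4
      obtain ⟨_, _, h5⟩ := special_inj (Option.some.inj h3)
      obtain ⟨_, _, h6⟩ := special_inj (Option.some.inj h4)
      rw [h5, h6]
      exact hF
  intro E F h
  exact le_antisymm (key E F h) (key F E h.symm)

/-! ### Lattice identities -/

lemma LT.eval_hom {M N : Type*} [Lattice M] [Lattice N] (f : M → N)
    (h1 : ∀ a b, f (a ⊓ b) = f a ⊓ f b) (h2 : ∀ a b, f (a ⊔ b) = f a ⊔ f b) (v : ℕ → M)
    (t : LT) : f (t.eval v) = t.eval (fun i => f (v i)) := by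
  induction t with
  | var n => rfl
  | sup s t hs ht =>
    simp only [LT.eval]
    rw [h2, hs, ht]
  | inf s t hs ht =>
    simp only [LT.eval]
    rw [h1, hs, ht]

/-- A countable lattice embeds into the lattice of subvarieties. -/
lemma embed (M : Type w) [Lattice M] [Countable M] :
    ∃ f : M → SubVar.{u}, Function.Injective f ∧ (∀ a b, f (a ⊓ b) = f a ⊓ f b) ∧
      ∀ a b, f (a ⊔ b) = f a ⊔ f b := by
  have : Countable Mᵒᵈ := (inferInstance : Countable M)
  obtain ⟨φ, h1, h2, h3⟩ := Pool.Agent.V116.Whitman.whitman (L := Mᵒᵈ)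
  refine ⟨fun a => VE (φ (OrderDual.toDual a)), ?_, ?_, ?_⟩
  · intro a b hab
    exact OrderDual.toDual.injective (h1 (VE_injective hab))
  · intro a b
    change VE (φ (OrderDual.toDual (a ⊓ b))) = _
    rw [toDual_inf, h3, VE_sup]
  · intro a b
    change VE (φ (OrderDual.toDual (a ⊔ b))) = _
    rw [toDual_sup, h2, VE_inf]

instance : Countable LT := by
  let f : LT → List ℕ := fun t => LT.rec (motive := fun _ => List ℕ) (fun n => [0, n])
    (fun _ _ l l' => 1 :: l.length :: (l ++ l')) (fun _ _ l l' => 2 :: l.length :: (l ++ l')) t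
  have hf : Function.Injective f := by
    intro s
    induction s with
    | var n =>
      intro t h
      cases t with
      | var m =>
        have h' : [0, n] = [0, m] := h
        simp at h'
        rw [h']
      | sup a b =>
        have h' : [0, n] = 1 :: (f a).length :: (f a ++ f b) := h
        simp at h'
      | inf a b =>
        have h' : [0, n] = 2 :: (f a).length :: (f a ++ f b) := h
        simp at h'
    | sup a b ha hb =>
      intro t h
      cases t with
      | var m =>
        have h' : 1 :: (f a).length :: (f a ++ f b) = [0, m] := h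
        simp at h'
      | sup c d =>
        have h' : 1 :: (f a).length :: (f a ++ f b) = 1 :: (f c).length :: (f c ++ f d) := h
        simp only [List.cons.injEq, true_and] at h'
        obtain ⟨e1, e2⟩ := List.append_inj h'.2 h'.1
        rw [ha e1, hb e2]
      | inf c d =>
        have h' : 1 :: (f a).length :: (f a ++ f b) = 2 :: (f c).length :: (f c ++ f d) := h
        simp at h'
    | inf a b ha hb =>
      intro t h
      cases t with
      | var m =>
        have h' : 2 :: (f a).length :: (f a ++ f b) = [0, m] := h
        simp at h'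
      | sup c d =>
        have h' : 2 :: (f a).length :: (f a ++ f b) = 1 :: (f c).length :: (f c ++ f d) := h
        simp at h'
      | inf c d =>
        have h' : 2 :: (f a).length :: (f a ++ f b) = 2 :: (f c).length :: (f c ++ f d) := h
        simp only [List.cons.injEq, true_and] at h'
        obtain ⟨e1, e2⟩ := List.append_inj h'.2 h'.1
        rw [ha e1, hb e2]
  exact hf.countable

/-- Every lattice identity that holds in the lattice of subvarieties of the variety of
implication zroupoids holds in all lattices. -/
theorem result (p q : LT) (h : LHolds SubVar.{u} p q) (M : Type w) [Lattice M] :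
    LHolds M p q := by
  intro v
  -- the sublattice generated by the values of `v`
  let M0 : Sublattice M := {
    carrier := Set.range (fun t : LT => t.eval v)
    supClosed' := by
      rintro _ ⟨s, rfl⟩ _ ⟨t, rfl⟩
      exact ⟨.sup s t, rfl⟩
    infClosed' := by
      rintro _ ⟨s, rfl⟩ _ ⟨t, rfl⟩
      exact ⟨.inf s t, rfl⟩ }
  have hc : Countable M0 := (Set.countable_range (fun t : LT => t.eval v)).to_subtype
  obtain ⟨f, h1, h2, h3⟩ := embed.{u, w} M0
  let v0 : ℕ → M0 := fun n => ⟨v n, ⟨.var n, rfl⟩⟩
  have h4 : p.eval v0 = q.eval v0 := by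
    apply h1
    rw [LT.eval_hom f h2 h3, LT.eval_hom f h2 h3]
    exact h _
  have h5 : ∀ t : LT, ((t.eval v0 : M0) : M) = t.eval v := by
    intro t
    exact LT.eval_hom (fun a : M0 => (a : M)) (fun _ _ => rfl) (fun _ _ => rfl) v0 t
  rw [← h5, ← h5, h4]

end Pool.Agent.Results.MP_79490a_al.NoLatticeIdentity
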